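import Pool.Agent.H59W.All
import Mathlib

set_option autoImplicit false
open Set

namespace Pool.Agent.Results.MP_437270_co.FiftyOfMore

/-- A simple matroid on `Fin 7`: the ground set is everything and circuits have at least three
elements. -/
def Simple (M : Matroid (Fin 7)) : Prop :=
  M.E = Set.univ ∧ ∀ C : Set (Fin 7), M.IsCircuit C → 3 ≤ C.ncard

/-- Every circuit has at least as many elements as every base. -/
def Paving (M : Matroid (Fin 7)) : Prop :=
  ∀ C B : Set (Fin 7), M.IsCircuit C → M.IsBase B → B.ncard ≤ C.ncard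

/-- The isomorphism class of a matroid with ground set `Fin 7`. -/
def isoClass (M : Matroid (Fin 7)) : Set (Matroid (Fin 7)) :=
  {N : Matroid (Fin 7) | N.E = Set.univ ∧
    ∃ σ : Equiv.Perm (Fin 7), ∀ I : Set (Fin 7), N.Indep I ↔ M.Indep (σ '' I)}

/-- The isomorphism classes of simple matroids with seven elements. -/
def simpleClasses : Set (Set (Matroid (Fin 7))) := {c | ∃ M, Simple M ∧ c = isoClass M}

/-- The isomorphism classes of simple paving matroids with seven elements. -/
def pavingClasses : Set (Set (Matroid (Fin 7))) := {c | ∃ M, Simple M ∧ Paving M ∧ c = isoClass M}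

section
open Pool.Agent.V1137.Welsh Pool.Agent.H59W

theorem allP_vals : (allP.map invm3).Nodup := by
  rw [allP_map]
  exact vals3_nodup

open Classical in
/-- the numerical invariant of a matroid -/
noncomputable def inv3 (M : Matroid (Fin 7)) : ℕ :=
  ∑ p : Fin 7, (∑ I : Finset (Fin 7), if p ∈ I ∧ M.Indep (I : Set (Fin 7)) then 1 else 0) ^ 3

theorem inv3_iso {M N : Matroid (Fin 7)} (σ : Equiv.Perm (Fin 7))
    (h : ∀ I : Set (Fin 7), N.Indep I ↔ M.Indep (σ '' I)) : inv3 N = inv3 M := by
  classical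
  unfold inv3
  rw [← Equiv.sum_comp σ (fun p : Fin 7 => (∑ I : Finset (Fin 7),
    if p ∈ I ∧ M.Indep (I : Set (Fin 7)) then 1 else 0) ^ 3)]
  apply Finset.sum_congr rfl
  intro p _
  refine congrArg (fun x : ℕ => x ^ 3) ?_
  rw [← Equiv.sum_comp σ.finsetCongr (fun I : Finset (Fin 7) =>
    if σ p ∈ I ∧ M.Indep (I : Set (Fin 7)) then 1 else 0)]
  apply Finset.sum_congr rfl
  intro I _
  have e1 : (σ p ∈ σ.finsetCongr I) ↔ p ∈ I := by
    rw [Equiv.finsetCongr_apply, Finset.mem_map_equiv]; simp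
  have e2 : ((σ.finsetCongr I : Finset (Fin 7)) : Set (Fin 7)) = σ '' (I : Set (Fin 7)) := by
    rw [Equiv.finsetCongr_apply, Finset.coe_map]; rfl
  have e3 : (p ∈ I ∧ N.Indep (I : Set (Fin 7))) ↔
      (σ p ∈ σ.finsetCongr I ∧ M.Indep ((σ.finsetCongr I : Finset (Fin 7)) : Set (Fin 7))) := by
    rw [e1, e2, h]
  by_cases hc : p ∈ I ∧ N.Indep (I : Set (Fin 7))
  · rw [if_pos hc, if_pos (e3.1 hc)]
  · rw [if_neg hc, if_neg (fun h' => hc (e3.2 h'))]

theorem inv3_mat (B : List ℕ) (h : exch B = true) (h0 : B.isEmpty = false) :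
    inv3 (mat B h h0) = invm3 B := by
  classical
  unfold inv3 invm3
  rw [← sum_range_list, ← Fin.sum_univ_eq_sum_range]
  apply Finset.sum_congr rfl
  intro p _
  refine congrArg (fun x : ℕ => x ^ 3) ?_
  rw [← sum_range_list, ← Fin.sum_univ_eq_sum_range]
  rw [← Equiv.sum_comp (Equiv.ofBijective _ S_bij) (fun I : Finset (Fin 7) =>
    if p ∈ I ∧ (mat B h h0).Indep (I : Set (Fin 7)) then 1 else 0)]
  apply Finset.sum_congr rfl
  intro m _
  rw [Equiv.ofBijective_apply]
  have e3 : (p ∈ S m ∧ (mat B h h0).Indep (S m : Set (Fin 7))) ↔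
      (((m : ℕ).testBit p && isInd B m) = true) := by
    rw [mem_S, mat_indep B h h0 m.2, Bool.and_eq_true]
  by_cases hc : ((m : ℕ).testBit p && isInd B m) = true
  · rw [if_pos (e3.2 hc), if_pos hc]
  · rw [if_neg (fun h' => hc (e3.1 h')), if_neg hc]

/-- the list number `k` -/
def nbp (k : Fin 50) : List ℕ := allP[k.1]'(by rw [allP_len]; exact k.2)

theorem nbp_ok (k : Fin 50) : OKp (nbp k) = true := by
  have h := allP_ok
  rw [List.all_eq_true] at h
  exact h _ (List.getElem_mem _)

theorem nbp_inj {k l : Fin 50} (h : invm3 (nbp k) = invm3 (nbp l)) : k = l := by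
  have hk : k.1 < (allP.map invm3).length := by rw [List.length_map, allP_len]; exact k.2
  have hl : l.1 < (allP.map invm3).length := by rw [List.length_map, allP_len]; exact l.2
  have := (List.Nodup.getElem_inj_iff allP_vals (hi := hk) (hj := hl)).1 (by
    rw [List.getElem_map, List.getElem_map]; exact h)
  exact Fin.ext this

theorem exists_pav (k : Fin 50) : ∃ M : Matroid (Fin 7), M.E = Set.univ ∧
    (∀ C : Set (Fin 7), M.IsCircuit C → 3 ≤ C.ncard) ∧
    (∀ C B : Set (Fin 7), M.IsCircuit C → M.IsBase B → B.ncard ≤ C.ncard) ∧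
    inv3 M = invm3 (nbp k) := by
  classical
  have hok := nbp_ok k
  rw [OKp, Bool.and_eq_true, Bool.and_eq_true, Bool.and_eq_true, Bool.not_eq_true',
    List.all_eq_true, List.all_eq_true] at hok
  obtain ⟨he, h0, hpair, hpav⟩ := hok
  refine ⟨mat (nbp k) he h0, rfl, ?_, ?_, inv3_mat _ _ _⟩
  · intro C hC
    by_contra hlt
    obtain ⟨c, hc, hcS⟩ := S_surj C.toFinset
    have hCS : (S c : Set (Fin 7)) = C := by rw [hcS]; simp
    have hpop : pop c = C.ncard := by
      rw [← S_card hc, ← Set.ncard_coe_finset, hCS]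
    have h1 := hpair c (List.mem_range.2 hc)
    have h2 : decide (pop c ≤ 2) = true := by rw [decide_eq_true_eq]; omega
    rw [h2] at h1
    simp only [Bool.not_true, Bool.false_or] at h1
    have h3 := (mat_indep (nbp k) he h0 hc).2 h1
    rw [hCS] at h3
    exact hC.not_indep h3
  · intro C B hC hB
    obtain ⟨c, hc, hcS⟩ := S_surj C.toFinset
    have hCS : (S c : Set (Fin 7)) = C := by rw [hcS]; simp
    have hpop : pop c = C.ncard := by
      rw [← S_card hc, ← Set.ncard_coe_finset, hCS]
    obtain ⟨b, hb, rfl⟩ : ∃ b ∈ nbp k, B = (S b : Set (Fin 7)) := hB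
    have h1 := hpav c (List.mem_range.2 hc)
    have h2 : isInd (nbp k) c = false := by
      by_contra hne
      rw [Bool.not_eq_false] at hne
      have h3 := (mat_indep (nbp k) he h0 hc).2 hne
      rw [hCS] at h3
      exact hC.not_indep h3
    rw [h2, Bool.false_or, List.all_eq_true] at h1
    have h4 := h1 b hb
    rw [Bool.and_eq_true, decide_eq_true_eq, decide_eq_true_eq] at h4
    rw [Set.ncard_coe_finset, S_card h4.1, ← hpop]
    exact h4.2

theorem P_ge : 50 ≤ P.ncard := by
  classical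
  choose M hE hs hp hi using exists_pav
  have hinj : Function.Injective fun k : Fin 50 => cls (M k) := by
    intro k l hkl
    have h1 : M k ∈ cls (M l) := by
      have : cls (M k) = cls (M l) := hkl
      rw [← this]; exact mem_cls_self (hE k)
    obtain ⟨_, σ, hσ⟩ := h1
    have h2 := inv3_iso σ hσ
    rw [hi, hi] at h2
    exact nbp_inj h2
  have hR : (Set.range fun k : Fin 50 => cls (M k)).ncard = 50 := by
    rw [← Set.image_univ, Set.ncard_image_of_injective _ hinj, Set.ncard_univ]
    simp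
  rw [← hR]
  refine Set.ncard_le_ncard ?_ (Set.toFinite _)
  rintro _ ⟨k, rfl⟩
  exact ⟨M k, hE k, hs k, hp k, rfl⟩

lemma P_eq : P = pavingClasses := by
  ext c
  constructor
  · rintro ⟨M, h1, h2, h3, h4⟩
    exact ⟨M, ⟨h1, h2⟩, h3, h4⟩
  · rintro ⟨M, ⟨h1, h2⟩, h3, h4⟩
    exact ⟨M, h1, h2, h3, h4⟩

lemma T_eq : T = simpleClasses := by
  ext c
  constructor
  · rintro ⟨M, h1, h2, h4⟩
    exact ⟨M, ⟨h1, h2⟩, h4⟩
  · rintro ⟨M, ⟨h1, h2⟩, h4⟩
    exact ⟨M, h1, h2, h4⟩

end

/-- On seven elements there are exactly fifty simple paving matroids up to isomorphism, and at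
least fifty-one simple matroids that are not paving. -/
theorem result : pavingClasses.ncard = 50 ∧ 51 ≤ (simpleClasses \ pavingClasses).ncard ∧
    2 * pavingClasses.ncard < simpleClasses.ncard := by
  have h1 : pavingClasses.ncard = 50 := by
    rw [← P_eq]
    exact le_antisymm Pool.Agent.V1137.Welsh.P_ncard P_ge
  have h2 : pavingClasses.ncard + 51 ≤ simpleClasses.ncard := by
    rw [← P_eq, ← T_eq]
    exact Pool.Agent.V1137.Welsh.T_ncard
  have hsub : pavingClasses ⊆ simpleClasses := by
    rintro c ⟨M, h1, -, h3⟩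
    exact ⟨M, h1, h3⟩
  refine ⟨h1, ?_, by omega⟩
  have := Set.ncard_sdiff_add_ncard_of_subset hsub (Set.toFinite _)
  omega

end Pool.Agent.Results.MP_437270_co.FiftyOfMore
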